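import Pool.Agent.Helper17.SL.Defs
import Pool.Agent.Helper17.SL.GoalsZE

/-!
# Project SL, module RB: the rank bound by interpolation determinants (PAPER.md, section 2)

`k` is a complete ultrametric field over `ℚ_p`. `Gd r f`: the function `f` on the unit polydisc of `k ^ N` is, for
all `K`, at distance at most `r ^ K` of a polynomial whose coefficients satisfy `|c_τ| ≤ r ^ |τ|`.

Each packet proves ONE of the `def S_... : Prop` (the docstring is the complete proof), in a file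
`Pool/Agent/HelperNN/SLR/NAME.lean` importing this file.
-/

namespace Pool.Agent.Helper42.SLR

open Pool.Agent.Helper51.SigLeo Pool.Agent.Helper51.SixExp Pool.Agent.Helper17.SL NumberField Module

universe u v w x y z

/-- Functions on the unit polydisc approximated by polynomials with coefficients `|c_τ| ≤ r ^ |τ|`. -/
def Gd {k : Type*} [NormedField k] {N : ℕ} (r : ℝ) (f : (Fin N → k) → k) : Prop :=
  ∀ K : ℕ, ∃ P : MvPolynomial (Fin N) k, (∀ τ, ‖P.coeff τ‖ ≤ r ^ (∑ n, τ n)) ∧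
    ∀ z : Fin N → k, (∀ n, ‖z n‖ ≤ 1) → ‖f z - MvPolynomial.eval z P‖ ≤ r ^ K

/-- **COMB** (0.5 h). PROOF. A multi-index `τ` with `|τ| < K` has all coordinates in `{0, …, K-1}`, so (the `τ i` are
distinct) at most `K ^ N` of the `i` have `|τ i| < K`; all the others, at least `l - K ^ N ≥ l / 2`, have `|τ i| ≥ K`. So
`2 ∑ |τ i| ≥ 2 (l - K ^ N) K ≥ l K`. -/
def S_COMB : Prop := ∀ (N K l : ℕ), 0 < N → 2 * K ^ N ≤ l → ∀ τ : Fin l → (Fin N →₀ ℕ),
  Function.Injective τ → l * K ≤ 2 * ∑ i, ∑ n, τ i n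

/-- **DETB** (1.3 h). PROOF. Take `K = m` in `Gd` for each `f i`: polynomials `P i`. (1) `|P i (z j)| ≤ 1`
(`MvPolynomial.eval_eq'`, ultrametric inequality `IsUltrametricDist.norm_sum_le_of_forall_le_of_nonneg`, all `r ^ _ ≤ 1`).
(2) If all the entries of `A`, `B` have norm `≤ 1` and all `|A i j - B i j| ≤ ε` then `|det A - det B| ≤ ε`
(`Matrix.det_apply`, for products `∏ a_i - ∏ b_i` by induction: `a b - a' b' = a (b - b') + (a - a') b'`). So it is enough to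
bound `det (P i (z j))`. (3) Row `i` is the sum over `τ` in the (finite) support of `P i` (or in the union of the supports)
of `coeff τ (P i) • (j ↦ ∏ n, z j n ^ τ n)`; expand with `Matrix.detRowAlternating` and `MultilinearMap.map_sum_finset`
(or `Matrix.det_apply` directly) and `AlternatingMap.map_smul_univ`-type lemma: `det = ∑_(τ_i) (∏ coeff (τ_i) (P i)) *
det (∏ n, z j n ^ τ_i n)`. If `τ` is not injective the determinant has two equal rows and vanishes; otherwise the norm of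
the term is `≤ ∏ r ^ |τ_i| * 1 = r ^ (∑ |τ_i|) ≤ r ^ m`. -/
def S_DETB : Prop := ∀ (k : Type v) [NormedField k] [IsUltrametricDist k] (N l m : ℕ) (r : ℝ),
  0 ≤ r → r ≤ 1 →
  (∀ τ : Fin l → (Fin N →₀ ℕ), Function.Injective τ → m ≤ ∑ i, ∑ n, τ i n) →
  ∀ (f : Fin l → (Fin N → k) → k) (z : Fin l → Fin N → k), (∀ i, Gd r (f i)) →
    (∀ j n, ‖z j n‖ ≤ 1) → ‖(Matrix.of fun i j ↦ f i (z j)).det‖ ≤ r ^ m

/-- **GDM** (1 h): closure properties. PROOF. Product: with `P`, `Q` for the same `K`, `f g - P Q = f (g - Q) + (f - P) Q`;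
`|Q| ≤ 1` on the polydisc (coefficients `≤ r ^ _ ≤ 1`), `|f| ≤ max |f - P| |P| ≤ 1`; coefficients of `P Q`:
`MvPolynomial.coeff_mul`, ultrametric inequality, `|τ'| + |τ''| = |τ|` on the antidiagonal. The constant `1`: `P = 1`
(`MvPolynomial.coeff_one`; `r ^ 0 = 1`, `0 ≤ r`). Powers and finite products by induction. Linear form:
`P = ∑ n, C (A n) * X n`, exact; its coefficients vanish unless `|τ| = 1`, and then are one of the `A n`
(`MvPolynomial.coeff_C_mul`, `coeff_X'`; ultrametric inequality). -/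
def S_GDM : Prop := ∀ (k : Type v) [NormedField k] [IsUltrametricDist k] (N : ℕ) (r : ℝ), 0 ≤ r → r ≤ 1 →
  (∀ f g : (Fin N → k) → k, Gd r f → Gd r g → Gd r (fun z ↦ f z * g z)) ∧
  Gd r (fun _ : Fin N → k ↦ (1 : k)) ∧
  (∀ (f : (Fin N → k) → k) (n : ℕ), Gd r f → Gd r (fun z ↦ f z ^ n)) ∧
  (∀ (ι : Type x) (s : Finset ι) (f : ι → (Fin N → k) → k), (∀ i ∈ s, Gd r (f i)) →
    Gd r (fun z ↦ ∏ i ∈ s, f i z)) ∧
  ∀ A : Fin N → k, (∀ n, ‖A n‖ ≤ r) → Gd r (fun z ↦ ∑ n, A n * z n)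

/-- **GDE** (1 h): the exponential (uses S_GDM). PROOF. `pexp (∑ B n * z n) = ∏ pexp (B n * z n)` on the polydisc
(`Pool.Agent.Helper51.SixExp.pexp_sum`; `‖B n * z n‖ ≤ p⁻²`); `Gd` only sees the polydisc, so by GDM it is enough to
treat one factor: for `K` take `P = ∑_{m < K} C (B n ^ m / m!) * X n ^ m`; `|B n ^ m / m!| ≤ (p * p⁻²) ^ m = p⁻ᵐ`
(`norm_term_le`, `p_mul_norm_le`); the coefficient of `τ` in `P` is `0` or `B n ^ |τ| / |τ|!` (`coeff_X_pow`,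
`τ = single n m`), and the remainder `∑'_{m ≥ K}` of `pexp (B n * z n)` (`Summable.sum_add_tsum_nat_add`, `summable_norm_term`) is
`≤ p⁻ᴷ` by `IsUltrametricDist.norm_tsum_le_of_forall_le_of_nonneg` (see `norm_pexp_sub_le` in
`Pool/Agent/Helper51/SixExp/PExp.lean` for the same argument with two terms). -/
def S_GDE : Prop := ∀ (p : ℕ) [Fact p.Prime] (k : Type v) [NormedField k] [NormedAlgebra ℚ_[p] k]
  [IsUltrametricDist k] [CompleteSpace k] (N : ℕ) (B : Fin N → k), (∀ n, ‖B n‖ ≤ ((p : ℝ)⁻¹) ^ 2) →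
  Gd (p : ℝ)⁻¹ (fun z : Fin N → k ↦ pexp (∑ n, B n * z n))

/-- **LIOU** (0.6 h). PROOF. `β = det M ∈ 𝓞 L`. `liouville` (`Pool/Agent/Helper51/SixExp/Core.lean`):
`1 ≤ ‖ι β‖ * house β ^ [L:ℚ]`. `house β ≤ l! * H ^ l`: `Matrix.det_apply`, `house_sum_le_sum_house`, `house_prod_le'`,
the sign does not change the house (`Units` of `ℤ`: `house (-α) = house α`, e.g. by `norm_neg`). -/
def S_LIOU : Prop := ∀ (p : ℕ) [Fact p.Prime] (k : Type v) [NormedField k] [NormedAlgebra ℚ_[p] k]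
  [IsUltrametricDist k] (L : Type w) [Field L] [NumberField L] (ι : L →+* k) (l m : ℕ) (H : ℝ)
  (M : Matrix (Fin l) (Fin l) (𝓞 L)), 1 ≤ H → (∀ i j, house (M i j : L) ≤ H) → M.det ≠ 0 →
  ‖ι (M.det : L)‖ ≤ ((p : ℝ)⁻¹) ^ m → (p : ℝ) ^ m ≤ ((l.factorial : ℝ) * H ^ l) ^ finrank ℚ L

/-- **HB** (1.2 h). PROOF. Let `h ≥ 1` bound all the houses of the `x q i`, `y q j`, `(y q j)⁻¹`. `house (∑ a q • x q i) ≤
g D h ≤ g h U`, so the `t i`-th power is `≤ (max 1 (g h U)) ^ U ≤ exp (c₁ U log U)` as `log (max 1 (g h U)) ≤ c₁ log U` for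
`U ≥ 2`. `house (∏ y q j ^ a q) ≤ h ^ (g D)` (zpow: `a q = n` or `-n`, use `h` for the inverse), so the `s j`-th power is
`≤ h ^ (g D S) ≤ h ^ (g U) ≤ exp (c₂ U log U)`. Multiply (`house_mul_le`, `house_pow_le`, `house_prod_le'` of
`Pool/Agent/Helper51/SixExp/Core.lean`). -/
def S_HB : Prop := ∀ (L : Type w) [Field L] [NumberField L] (g : ℕ) (I : Type x) (J : Type y) [Fintype I]
  [Fintype J] (x : Fin g → I → 𝓞 L) (y : Fin g → J → (𝓞 L)ˣ), ∃ c : ℝ, 0 < c ∧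
  ∀ U T D S : ℕ, 2 ≤ U → T ≤ U → D ≤ U → S * D ≤ U → ∀ (a : Fin g → ℤ) (t : I → ℕ) (s : J → ℕ),
    (∀ q, |a q| ≤ D) → (∀ i, t i ≤ T) → (∀ j, s j ≤ S) →
    house (((∏ i, (∑ q, a q • x q i) ^ t i) * ∏ j, ((∏ q, y q j ^ a q : (𝓞 L)ˣ) : 𝓞 L) ^ s j : 𝓞 L) : L) ≤
      Real.exp (c * (U * Real.log U))

/-- **FIN** (1 h). PROOF. `l ≥ 1` (else trivial). Let `K` be the largest natural number with `2 K ^ N ≤ l`
(`Nat.findGreatest`, or `K = ⌊(l/2)^(1/N)⌋`), `m = l K / 2` (euclidean division), `m ≥ (l K - 1) / 2`. Take logarithms: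
`m log 2 ≤ m log p ≤ deg (l log l + l c U log U)` (`Nat.factorial_le_pow`-type bound `l! ≤ l ^ l`), `log l ≤ g log (2U+1) ≤
c' U log U`; divide by `l`: `K ≤ C₂ U log U` (note `U log U ≥ 2 log 2 ≥ 1`). Since `l < 2 (K+1) ^ N`,
`l ≤ 2 ((C₂ + 1) U log U) ^ N`. -/
def S_FIN : Prop := ∀ (p g N deg : ℕ) (c : ℝ), 2 ≤ p → 0 < N → 0 ≤ c → ∃ C : ℝ, 0 < C ∧ ∀ U l : ℕ,
  2 ≤ U → l ≤ (2 * U + 1) ^ g →
  (∀ K m : ℕ, 2 * K ^ N ≤ l → 2 * m ≤ l * K →
    (p : ℝ) ^ m ≤ ((l.factorial : ℝ) * Real.exp (c * (U * Real.log U)) ^ l) ^ deg) →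
  (l : ℝ) ≤ C * (U * Real.log U) ^ N

/-- **NZ** (0.7 h). PROOF. Choose a basis of the span indexed by `Fin r`, `r ≤ N`, extend it by `0` to `Fin N`
(e.g. a function `z : Fin N → Fin g → k` whose span contains the span of the range of `G`), divide each nonzero `z n` by
a coordinate of largest norm (`Finset.exists_max_image`; `g = 0` is trivial), and take coordinates
(`Submodule.mem_span_range_iff_exists_fun`). -/
def S_NZ : Prop := ∀ (k : Type v) [NormedField k] (g N : ℕ) (M : Type x) [Finite M] (G : M → Fin g → k),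
  finrank k (Submodule.span k (Set.range G)) ≤ N → ∃ (z : Fin N → Fin g → k) (A : M → Fin N → k),
    (∀ n c, ‖z n c‖ ≤ 1) ∧ ∀ m c, G m c = ∑ n, A m n * z n c

/-- **NU** (1.2 h). PROOF. For each `(q, j)` there are `n > 0` and a unit `u` with `n y_qj = Λ(ι u)`; replace `n` by the
product of all of them (`u` by a power). `exists_numberField` (`Helper51/SixExp/UnitsAlg.lean`) gives a number field `L ⊆ Ω`
containing the units; enlarge it by the `x q i` (adjoin them too: copy the proof, the `x q i` are algebraic over `ℚ`). Then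
multiply `n` by the integer of `exists_pow_norm_le p` (`Helper51/SixExp/Main.lean`) and by denominators of the `x q i`
(`IsIntegral.exists_multiple_integral_of_isLocalization` or `exists_integral_multiple`). -/
def S_NU : Prop := ∀ (p : ℕ) [Fact p.Prime] (k : Type v) [NormedField k] [NormedAlgebra ℚ_[p] k]
  [IsUltrametricDist k] [CompleteSpace k] [CharZero k] (Ω : Type u) [Field Ω] [CharZero Ω]
  [Algebra.IsAlgebraic ℚ Ω] (ι : Ω →+* k) (Λ : IwasawaLog p k) (g : ℕ) (I : Type x) (J : Type y)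
  [Fintype I] [Fintype J] (X : Fin g → I → Ω) (Y : Fin g → J → k), (∀ q j, IsLog Λ ι (Y q j)) →
  ∃ (n : ℕ) (L : IntermediateField ℚ Ω) (_ : NumberField L) (x : Fin g → I → 𝓞 L)
    (y : Fin g → J → (𝓞 L)ˣ), 0 < n ∧
    (∀ q i, ((x q i : L) : Ω) = n * X q i) ∧
    (∀ q j, ‖ι ((y q j : L) : Ω) - 1‖ ≤ ((p : ℝ)⁻¹) ^ 2) ∧
    ∀ q j, (n : k) * Y q j = logU Λ (ι.comp (algebraMap L Ω)) (y q j)

/-- **S_RB**, the conclusion of the module. The rows of the determinant are the monomials `X ^ t Y ^ s`, the columns the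
points of the box. -/
def S_RB : Prop := ∀ (p : ℕ) [Fact p.Prime] (k : Type v) [NormedField k] [NormedAlgebra ℚ_[p] k]
  [IsUltrametricDist k] [CompleteSpace k] [CharZero k] (Ω : Type u) [Field Ω] [CharZero Ω]
  [Algebra.IsAlgebraic ℚ Ω] (ι : Ω →+* k) (Λ : IwasawaLog p k)
  (V : Type w) [AddCommGroup V] [Module ℚ V] [FiniteDimensional ℚ V] (I : Type x) (J : Type y)
  [Fintype I] [Fintype J] (X : I → V →ₗ[ℚ] Ω) (Y : J → V →ₗ[ℚ] k) (N : ℕ),
  (∀ j v, IsLog Λ ι (Y j v)) → 0 < N →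
  finrank k (Submodule.span k ((Set.range fun i ↦ (fun v ↦ ι (X i v) : V → k)) ∪
    (Set.range fun j ↦ (fun v ↦ Y j v : V → k)))) ≤ N →
  ∃ (g : ℕ) (e : Basis (Fin g) ℚ V) (D : Dat Ω I J g) (C : ℝ), 0 < C ∧
    (∀ a i, D.X a i = X i (∑ q, (a q : ℚ) • e q)) ∧
    (∀ a j, Λ.toFun (Units.map (ι : Ω →* k) (Units.mk0 (D.Y a j) (D.Y_ne a j))) =
      Y j (∑ q, (a q : ℚ) • e q)) ∧
    (∀ (a : Fin g → ℤ) (s : J → ℤ), ∏ j, D.Y a j ^ s j = 1 ↔
      ∑ j, (s j : ℚ) • Y j (∑ q, (a q : ℚ) • e q) = 0) ∧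
    ∀ U T B S : ℕ, 2 ≤ U → T ≤ U → B ≤ U → S * B ≤ U → ∀ (l : ℕ) (t : Fin l → I → ℕ)
      (s : Fin l → J → ℕ) (a : Fin l → Fin g → ℤ), (∀ m i, t m i ≤ T) → (∀ m j, s m j ≤ S) →
      (∀ m q, |a m q| ≤ B) →
      (Matrix.of fun m m' ↦ (∏ i, D.X (a m') i ^ t m i) * ∏ j, D.Y (a m') j ^ s m j).det ≠ 0 →
      (l : ℝ) ≤ C * (U * Real.log U) ^ N

end Pool.Agent.Helper42.SLR
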