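import Pool.Agent.Helper42.SLR.Asm
import Pool.Agent.Helper18.SLR.COMB
import Pool.Agent.Helper18.SLR.LIOU
import Pool.Agent.Helper68.SLR.GDM
import Pool.Agent.Helper68.SLR.FIN
import Pool.Agent.Helper34.SLR.GDE
import Pool.Agent.Helper55.SLR.HB
import Pool.Agent.Helper70.SLR.NZ
import Pool.Agent.Helper40.SLR.NU
import Pool.Agent.Helper48.SLR.DETB

/-!
# Project SL, module RB: the conclusion
-/

namespace Pool.Agent.Helper42.SLR

universe u v w x y

theorem rb_of_detb (hDE : S_DETB.{v}) : S_RB.{u, v, w, x, y} :=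
  rb Pool.Agent.Helper18.SLR.comb hDE Pool.Agent.Helper68.SLR.GDM.gdm
    Pool.Agent.Helper68.SLR.GDM.gdm (Pool.Agent.Helper34.SLR.gde Pool.Agent.Helper68.SLR.GDM.gdm)
    Pool.Agent.Helper18.SLR.liou Pool.Agent.Helper55.SLR.hb Pool.Agent.Helper68.SLR.FIN.fin
    Pool.Agent.Helper70.SLR.nz Pool.Agent.Helper40.SLR.nu

/-- **S_RB.** -/
theorem rb_holds : S_RB.{u, v, w, x, y} := rb_of_detb Pool.Agent.Helper48.SLR.detb

end Pool.Agent.Helper42.SLR
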