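import Pool.Agent.Helper42.SLR.Defs

/-!
# Project SL, module RB: assembly
-/

namespace Pool.Agent.Helper42.SLR

open Pool.Agent.Helper51.SigLeo Pool.Agent.Helper51.SixExp Pool.Agent.Helper17.SL NumberField Module

universe u v w x y z

set_option linter.unusedSectionVars false

section

variable (p : ℕ) [hp : Fact p.Prime] {k : Type v} [NormedField k] [NormedAlgebra ℚ_[p] k]
  [IsUltrametricDist k] [CompleteSpace k]

include hp in
theorem norm_intCast_le_one (m : ℤ) : ‖(m : k)‖ ≤ 1 := by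
  cases m with
  | ofNat m => rw [Int.ofNat_eq_natCast, Int.cast_natCast]; exact norm_natCast_le_one p m
  | negSucc m =>
    rw [Int.cast_negSucc, norm_neg]
    exact norm_natCast_le_one p (m + 1)

/-- units near `1` -/
theorem near_prod {ι : Type*} (s : Finset ι) (u : ι → kˣ) {ε : ℝ} (h0 : 0 ≤ ε) (h1 : ε < 1)
    (h : ∀ i ∈ s, ‖(u i : k) - 1‖ ≤ ε) : ‖((∏ i ∈ s, u i : kˣ) : k) - 1‖ ≤ ε := by
  classical
  induction s using Finset.induction_on with
  | empty => simpa using h0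
  | insert a s ha ih =>
    rw [Finset.prod_insert ha, Units.val_mul]
    have h2 := ih fun i hi ↦ h i (Finset.mem_insert_of_mem hi)
    have h3 := h a (Finset.mem_insert_self a s)
    have h4 : ‖((u a : kˣ) : k)‖ ≤ 1 := by
      have : ((u a : kˣ) : k) = ((u a : k) - 1) + 1 := by ring
      rw [this]
      refine (norm_add_le_max' _ _).trans (max_le (h3.trans h1.le) (by rw [norm_one]))
    have h5 : ((u a : kˣ) : k) * ((∏ i ∈ s, u i : kˣ) : k) - 1 =
        (u a : k) * (((∏ i ∈ s, u i : kˣ) : k) - 1) + ((u a : k) - 1) := by ring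
    rw [h5]
    refine (norm_add_le_max' _ _).trans (max_le ?_ h3)
    rw [norm_mul]
    exact (mul_le_of_le_one_left (norm_nonneg _) h4).trans h2

theorem near_inv (u : kˣ) {ε : ℝ} (h1 : ε < 1) (h : ‖(u : k) - 1‖ ≤ ε) :
    ‖((u⁻¹ : kˣ) : k) - 1‖ ≤ ε := by
  have hu1 : ‖(u : k)‖ = 1 := by
    have : (u : k) = 1 + (u - 1) := by ring
    rw [this, norm_add_eq_of_lt, norm_one]
    rw [norm_one]; linarith
  have h4 : ((u⁻¹ : kˣ) : k) - 1 = -(((u : k) - 1)) / u := by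
    rw [Units.val_inv_eq_inv_val]
    have := Units.ne_zero u
    field_simp
    ring
  rw [h4, norm_div, hu1, div_one, norm_neg]
  exact h

theorem near_pow (u : kˣ) {ε : ℝ} (h0 : 0 ≤ ε) (h1 : ε < 1) (h : ‖(u : k) - 1‖ ≤ ε) (m : ℕ) :
    ‖((u ^ m : kˣ) : k) - 1‖ ≤ ε := by
  have := near_prod (Finset.range m) (fun _ ↦ u) h0 h1 fun _ _ ↦ h
  rwa [Finset.prod_const, Finset.card_range] at this

theorem near_zpow (u : kˣ) {ε : ℝ} (h0 : 0 ≤ ε) (h1 : ε < 1) (h : ‖(u : k) - 1‖ ≤ ε) (m : ℤ) :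
    ‖((u ^ m : kˣ) : k) - 1‖ ≤ ε := by
  obtain ⟨n, rfl | rfl⟩ := m.eq_nat_or_neg
  · rw [zpow_natCast]; exact near_pow u h0 h1 h n
  · rw [zpow_neg, zpow_natCast]
    exact near_inv _ h1 (near_pow u h0 h1 h n)

end

/-- The images in `k` of the monomials are good functions. -/
theorem gd_mono (hGM : S_GDM.{v, x}) (hGM' : S_GDM.{v, y}) (hGE : S_GDE.{v}) (p : ℕ) [Fact p.Prime] (k : Type v)
    [NormedField k] [NormedAlgebra ℚ_[p] k] [IsUltrametricDist k] [CompleteSpace k] (N : ℕ)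
    (I : Type x) (J : Type y) [Fintype I] [Fintype J] (A : I → Fin N → k) (B : J → Fin N → k)
    (hA : ∀ i n, ‖A i n‖ ≤ (p : ℝ)⁻¹) (hB : ∀ j n, ‖B j n‖ ≤ ((p : ℝ)⁻¹) ^ 2)
    (t : I → ℕ) (s : J → ℕ) :
    Gd (p : ℝ)⁻¹ (fun z : Fin N → k ↦ (∏ i, (∑ n, A i n * z n) ^ t i) *
      ∏ j, pexp (∑ n, B j n * z n) ^ s j) := by
  obtain ⟨h1, -, h3, h4, h5⟩ := hGM k N (p : ℝ)⁻¹ p_inv_nonneg (p_inv_lt_one p).le
  obtain ⟨-, -, -, h4', -⟩ := hGM' k N (p : ℝ)⁻¹ p_inv_nonneg (p_inv_lt_one p).le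
  refine h1 _ _ ?_ ?_
  · exact h4 I Finset.univ _ fun i _ ↦ h3 _ _ (h5 _ (hA i))
  · exact h4' J Finset.univ _ fun j _ ↦ h3 _ _ (hGE p k N (B j) (hB j))

/-- The rank bound for normalised data. -/
theorem bound (hCO : S_COMB) (hDE : S_DETB.{v}) (hGM : S_GDM.{v, x}) (hGM' : S_GDM.{v, y})
    (hGE : S_GDE.{v}) (hLI : S_LIOU.{v, w}) (hHB : S_HB.{w, x, y}) (hFI : S_FIN)
    (p : ℕ) [Fact p.Prime] (k : Type v)
    [NormedField k] [NormedAlgebra ℚ_[p] k] [IsUltrametricDist k] [CompleteSpace k]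
    (L : Type w) [Field L] [NumberField L] (ι : L →+* k) (g N : ℕ) (hN : 0 < N)
    (I : Type x) (J : Type y) [Fintype I] [Fintype J] (x : Fin g → I → 𝓞 L)
    (y : Fin g → J → (𝓞 L)ˣ) (z : Fin g → Fin N → k) (A : I → Fin N → k) (B : J → Fin N → k)
    (hz : ∀ q n, ‖z q n‖ ≤ 1) (hA : ∀ i n, ‖A i n‖ ≤ (p : ℝ)⁻¹)
    (hB : ∀ j n, ‖B j n‖ ≤ ((p : ℝ)⁻¹) ^ 2)
    (hX : ∀ (a : Fin g → ℤ) i, ι ((∑ q, a q • x q i : 𝓞 L) : L) =
      ∑ n, A i n * ∑ q, (a q : k) * z q n)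
    (hY : ∀ (a : Fin g → ℤ) j, ι (((∏ q, y q j ^ a q : (𝓞 L)ˣ) : 𝓞 L) : L) =
      pexp (∑ n, B j n * ∑ q, (a q : k) * z q n)) :
    ∃ C : ℝ, 0 < C ∧ ∀ U T D S : ℕ, 2 ≤ U → T ≤ U → D ≤ U → S * D ≤ U → ∀ (l : ℕ)
      (t : Fin l → I → ℕ) (s : Fin l → J → ℕ) (a : Fin l → Fin g → ℤ), (∀ m i, t m i ≤ T) →
      (∀ m j, s m j ≤ S) → (∀ m q, |a m q| ≤ D) →
      (Matrix.of fun m m' ↦ ((∏ i, (∑ q, a m' q • x q i) ^ t m i) *
        ∏ j, ((∏ q, y q j ^ a m' q : (𝓞 L)ˣ) : 𝓞 L) ^ s m j : 𝓞 L)).det ≠ 0 →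
      (l : ℝ) ≤ C * (U * Real.log U) ^ N := by
  obtain ⟨c, hc0, hc⟩ := hHB L g I J x y
  obtain ⟨C, hC0, hC⟩ := hFI p g N (finrank ℚ L) c (Fact.out : p.Prime).two_le hN hc0.le
  refine ⟨C, hC0, ?_⟩
  intro U T D S hU hT hD hSD l t s a ht hs ha hdet
  set M : Matrix (Fin l) (Fin l) (𝓞 L) := Matrix.of fun m m' ↦ ((∏ i, (∑ q, a m' q • x q i) ^ t m i) *
        ∏ j, ((∏ q, y q j ^ a m' q : (𝓞 L)ˣ) : 𝓞 L) ^ s m j : 𝓞 L) with hM
  -- the points are distinct
  have hinj : Function.Injective a := by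
    intro m m' hmm
    by_contra hne
    apply hdet
    refine Matrix.det_zero_of_column_eq hne fun i ↦ ?_
    rw [hM, Matrix.of_apply, Matrix.of_apply, hmm]
  have hl : l ≤ (2 * U + 1) ^ g := by
    let F : Fin l → (Fin g → Fin (2 * U + 1)) := fun m q ↦ ⟨(a m q + U).toNat, by
      have h1 := ha m q
      rw [abs_le] at h1
      have h2 : (D : ℤ) ≤ U := by exact_mod_cast hD
      omega⟩
    have hF : Function.Injective F := by
      intro m m' h
      apply hinj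
      funext q
      have h1 := congrArg Fin.val (congrFun h q)
      simp only [F] at h1
      have h2 := ha m q
      have h3 := ha m' q
      rw [abs_le] at h2 h3
      have h4 : (D : ℤ) ≤ U := by exact_mod_cast hD
      omega
    have := Fintype.card_le_of_injective F hF
    rwa [Fintype.card_fin, Fintype.card_fun, Fintype.card_fin, Fintype.card_fin] at this
  refine hC U l hU hl ?_
  intro K m hK hm
  -- the determinant in `k`
  set zz : Fin l → Fin N → k := fun m' n ↦ ∑ q, (a m' q : k) * z q n with hzz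
  have hzz1 : ∀ m' n, ‖zz m' n‖ ≤ 1 := by
    intro m' n
    refine IsUltrametricDist.norm_sum_le_of_forall_le_of_nonneg zero_le_one fun q _ ↦ ?_
    rw [norm_mul]
    exact mul_le_one₀ (norm_intCast_le_one p _) (norm_nonneg _) (hz q n)
  set f : Fin l → (Fin N → k) → k := fun m z ↦ (∏ i, (∑ n, A i n * z n) ^ t m i) *
      ∏ j, pexp (∑ n, B j n * z n) ^ s m j with hf
  have hgd : ∀ i, Gd (p : ℝ)⁻¹ (f i) := fun i ↦
    gd_mono hGM hGM' hGE p k N I J A B hA hB (t i) (s i)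
  have hentry : ∀ i j, ι (M i j : L) = f i (zz j) := by
    intro i j
    rw [hM, Matrix.of_apply]
    simp only [hf, hzz]
    have e1 : (((∏ i', (∑ q, a j q • x q i') ^ t i i') *
        ∏ j', ((∏ q, y q j' ^ a j q : (𝓞 L)ˣ) : 𝓞 L) ^ s i j' : 𝓞 L) : L) =
        (∏ i', ((∑ q, a j q • x q i' : 𝓞 L) : L) ^ t i i') *
        ∏ j', (((∏ q, y q j' ^ a j q : (𝓞 L)ˣ) : 𝓞 L) : L) ^ s i j' := by
      refine (map_mul (algebraMap (𝓞 L) L) _ _).trans ?_
      rw [map_prod, map_prod]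
      congr 1
    rw [e1, map_mul, map_prod, map_prod]
    congr 1
    · refine Finset.prod_congr rfl fun i' _ ↦ ?_
      rw [map_pow, hX]
    · refine Finset.prod_congr rfl fun j' _ ↦ ?_
      rw [map_pow, hY]
  have hdetk : ι (M.det : L) = (Matrix.of fun i j ↦ f i (zz j)).det := by
    have e1 : (ι.comp (algebraMap (𝓞 L) L)) M.det =
        ((ι.comp (algebraMap (𝓞 L) L)).mapMatrix M).det := RingHom.map_det _ _
    have e2 : (ι.comp (algebraMap (𝓞 L) L)).mapMatrix M = Matrix.of fun i j ↦ f i (zz j) := by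
      ext i j
      exact hentry i j
    rw [e2] at e1
    exact e1
  have hnorm : ‖ι (M.det : L)‖ ≤ ((p : ℝ)⁻¹) ^ m := by
    rw [hdetk]
    refine hDE k N l m (p : ℝ)⁻¹ p_inv_nonneg (p_inv_lt_one p).le ?_ f zz hgd hzz1
    intro τ hτ
    have := hCO N K l hN hK τ hτ
    omega
  refine hLI p k L ι l m (Real.exp (c * (U * Real.log U))) M ?_ ?_ hdet hnorm
  · rw [Real.one_le_exp_iff]
    have : 0 ≤ Real.log U := Real.log_natCast_nonneg U
    positivity
  · intro i j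
    rw [hM, Matrix.of_apply]
    exact hc U T D S hU hT hD hSD (a j) (t i) (s i) (ha j) (ht i) (hs i)

/-- **The rank bound.** -/
theorem rb (hCO : S_COMB) (hDE : S_DETB.{v}) (hGM : S_GDM.{v, x}) (hGM' : S_GDM.{v, y})
    (hGE : S_GDE.{v}) (hLI : S_LIOU.{v, u}) (hHB : S_HB.{u, x, y}) (hFI : S_FIN)
    (hNZ : S_NZ.{v, max x y}) (hNU : S_NU.{u, v, x, y}) : S_RB.{u, v, w, x, y} := by
  intro p hp k _ _ _ _ _ Ω _ _ _ ι Λ V _ _ _ I J _ _ X Y N hlog hN hrank
  classical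
  set g := finrank ℚ V with hg
  let b : Basis (Fin g) ℚ V := finBasis ℚ V
  obtain ⟨n, L, hL, x0, y0, hn, hx0, hy0, hy1⟩ := hNU p k Ω ι Λ g I J (fun q i ↦ X i (b q))
    (fun q j ↦ Y j (b q)) (fun q j ↦ hlog j (b q))
  let G : I ⊕ J → Fin g → k := Sum.elim (fun i q ↦ (n : k) * ι (X i (b q)))
    (fun j q ↦ (n : k) * Y j (b q))
  have hG : finrank k (Submodule.span k (Set.range G)) ≤ N := by
    let R : (V → k) →ₗ[k] (Fin g → k) :=
      { toFun := fun f q ↦ (n : k) * f (b q)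
        map_add' := fun f f' ↦ by funext q; simp [mul_add]
        map_smul' := fun c f ↦ by funext q; simp; ring }
    set A1 : Set (V → k) := (Set.range fun i ↦ (fun v ↦ ι (X i v) : V → k)) ∪
      (Set.range fun j ↦ (fun v ↦ Y j v : V → k)) with hA1
    have e1 : Set.range G = R '' A1 := by
      rw [hA1, Set.image_union, Set.Sum.elim_range, ← Set.range_comp, ← Set.range_comp]
      rfl
    have hfin : A1.Finite := (Set.finite_range _).union (Set.finite_range _)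
    have : Module.Finite k (Submodule.span k A1) := FiniteDimensional.span_of_finite k hfin
    rw [e1, ← Submodule.map_span]
    exact (Submodule.finrank_map_le R _).trans hrank
  obtain ⟨z, A0, hz, hA0⟩ := hNZ k g N (I ⊕ J) G hG
  -- choice of the power of `p`
  have hp0 : (0 : ℝ) < (p : ℝ)⁻¹ := by
    have : (0 : ℝ) < p := by exact_mod_cast hp.out.pos
    positivity
  obtain ⟨K, hK⟩ : ∃ K : ℕ, ∀ m n, ((p : ℝ)⁻¹) ^ K * ‖A0 m n‖ ≤ ((p : ℝ)⁻¹) ^ 2 := by
    set M0 : ℝ := 1 + ∑ m, ∑ n, ‖A0 m n‖ with hM0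
    have hM1 : 0 < M0 := by
      have : 0 ≤ ∑ m, ∑ n, ‖A0 m n‖ :=
        Finset.sum_nonneg fun _ _ ↦ Finset.sum_nonneg fun _ _ ↦ norm_nonneg _
      linarith
    obtain ⟨K, hK⟩ := exists_pow_lt_of_lt_one (show 0 < ((p : ℝ)⁻¹) ^ 2 / M0 by positivity)
      (p_inv_lt_one p)
    refine ⟨K, fun m n ↦ ?_⟩
    have h1 : ‖A0 m n‖ ≤ M0 := by
      have h2 : ‖A0 m n‖ ≤ ∑ n, ‖A0 m n‖ :=
        Finset.single_le_sum (f := fun n ↦ ‖A0 m n‖) (fun _ _ ↦ norm_nonneg _) (Finset.mem_univ n)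
      have h3 : ∑ n, ‖A0 m n‖ ≤ ∑ m, ∑ n, ‖A0 m n‖ :=
        Finset.single_le_sum (f := fun m ↦ ∑ n, ‖A0 m n‖)
          (fun _ _ ↦ Finset.sum_nonneg fun _ _ ↦ norm_nonneg _) (Finset.mem_univ m)
      linarith
    calc ((p : ℝ)⁻¹) ^ K * ‖A0 m n‖ ≤ (((p : ℝ)⁻¹) ^ 2 / M0) * M0 :=
          mul_le_mul hK.le h1 (norm_nonneg _) (by positivity)
      _ = _ := by field_simp
  set P : ℕ := p ^ K with hP
  have hP0 : 0 < P := pow_pos hp.out.pos K
  have hPn : ‖(P : k)‖ = ((p : ℝ)⁻¹) ^ K := by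
    rw [hP]
    push_cast
    rw [norm_pow, norm_natCast_eq p, Padic.norm_p]
  set ι' : L →+* k := ι.comp (algebraMap L Ω) with hι'
  let xx : Fin g → I → 𝓞 L := fun q i ↦ P • x0 q i
  let yy : Fin g → J → (𝓞 L)ˣ := fun q j ↦ y0 q j ^ P
  let A : I → Fin N → k := fun i n ↦ (P : k) * A0 (Sum.inl i) n
  let B : J → Fin N → k := fun j n ↦ (P : k) * A0 (Sum.inr j) n
  have hsq : ((p : ℝ)⁻¹) ^ 2 ≤ (p : ℝ)⁻¹ := by
    have := (p_inv_lt_one p).le
    nlinarith
  have hAB : ∀ m n, ‖(P : k) * A0 m n‖ ≤ ((p : ℝ)⁻¹) ^ 2 := by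
    intro m n
    rw [norm_mul, hPn]
    exact hK m n
  have hA : ∀ i n, ‖A i n‖ ≤ (p : ℝ)⁻¹ := fun i n ↦ (hAB _ _).trans hsq
  have hB : ∀ j n, ‖B j n‖ ≤ ((p : ℝ)⁻¹) ^ 2 := fun j n ↦ hAB _ _
  -- the additive coordinates
  have hX : ∀ (a : Fin g → ℤ) i, ι' ((∑ q, a q • xx q i : 𝓞 L) : L) =
      ∑ n, A i n * ∑ q, (a q : k) * z n q := by
    intro a i
    have e1 : ((∑ q, a q • xx q i : 𝓞 L) : L) = ∑ q, (a q : L) * ((P : L) * (x0 q i : L)) := by
      refine (map_sum (algebraMap (𝓞 L) L) _ _).trans ?_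
      refine Finset.sum_congr rfl fun q _ ↦ ?_
      simp [xx]
    rw [e1, map_sum]
    have e2 : ∀ q, ι' ((a q : L) * ((P : L) * (x0 q i : L))) =
        ∑ n, A i n * ((a q : k) * z n q) := by
      intro q
      have h1 := hA0 (Sum.inl i) q
      have h2 : ι' (x0 q i : L) = (n : k) * ι (X i (b q)) := by
        rw [hι', RingHom.comp_apply]
        have := hx0 q i
        rw [← IntermediateField.algebraMap_apply] at this
        rw [this, map_mul, map_natCast]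
      rw [map_mul, map_mul, map_intCast, map_natCast, h2]
      have h3 : (n : k) * ι (X i (b q)) = ∑ n, A0 (Sum.inl i) n * z n q := h1
      rw [h3, Finset.mul_sum, Finset.mul_sum]
      refine Finset.sum_congr rfl fun n _ ↦ ?_
      simp only [A]
      ring
    rw [Finset.sum_congr rfl fun q _ ↦ e2 q, Finset.sum_comm]
    refine Finset.sum_congr rfl fun n _ ↦ ?_
    rw [Finset.mul_sum]
  -- the multiplicative coordinates
  have hq1 : ((p : ℝ)⁻¹) ^ 2 < 1 := lt_of_le_of_lt hsq (p_inv_lt_one p)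
  let W : (Fin g → ℤ) → J → kˣ := fun a j ↦
    Units.map (ι'.comp (algebraMap (𝓞 L) L) : 𝓞 L →* k) (∏ q, yy q j ^ a q)
  have hW1 : ∀ a j, ‖((W a j : kˣ) : k) - 1‖ ≤ ((p : ℝ)⁻¹) ^ 2 := by
    intro a j
    have e1 : W a j = ∏ q, ((Units.map (ι'.comp (algebraMap (𝓞 L) L) : 𝓞 L →* k) (y0 q j)) ^ P) ^ a q := by
      simp only [W, yy, map_prod, map_zpow, map_pow]
    rw [e1]
    refine near_prod _ _ (by positivity) hq1 fun q _ ↦ ?_
    refine near_zpow _ (by positivity) hq1 (near_pow _ (by positivity) hq1 ?_ P) _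
    exact hy0 q j
  have hWlog : ∀ (a : Fin g → ℤ) j, Λ.toFun (W a j) = ∑ q, (a q : k) * ((P : k) * ((n : k) * Y j (b q))) := by
    intro a j
    have e1 : W a j = ∏ q, ((Units.map (ι'.comp (algebraMap (𝓞 L) L) : 𝓞 L →* k) (y0 q j)) ^ P) ^ a q := by
      simp only [W, yy, map_prod, map_zpow, map_pow]
    rw [e1, log_prod]
    refine Finset.sum_congr rfl fun q _ ↦ ?_
    rw [log_zpow, log_pow, hy1 q j]
    rfl
  have hYs : ∀ (a : Fin g → ℤ) j, ∑ q, (a q : k) * ((P : k) * ((n : k) * Y j (b q))) =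
      ∑ n, B j n * ∑ q, (a q : k) * z n q := by
    intro a j
    have e2 : ∀ q, (a q : k) * ((P : k) * ((n : k) * Y j (b q))) =
        ∑ n, B j n * ((a q : k) * z n q) := by
      intro q
      have h3 : (n : k) * Y j (b q) = ∑ n, A0 (Sum.inr j) n * z n q := hA0 (Sum.inr j) q
      rw [h3, Finset.mul_sum, Finset.mul_sum]
      refine Finset.sum_congr rfl fun n _ ↦ ?_
      simp only [B]
      ring
    rw [Finset.sum_congr rfl fun q _ ↦ e2 q, Finset.sum_comm]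
    refine Finset.sum_congr rfl fun n _ ↦ ?_
    rw [Finset.mul_sum]
  have hY : ∀ (a : Fin g → ℤ) j, ι' (((∏ q, yy q j ^ a q : (𝓞 L)ˣ) : 𝓞 L) : L) =
      pexp (∑ n, B j n * ∑ q, (a q : k) * z n q) := by
    intro a j
    rw [← hYs, ← hWlog, pexp_log Λ (W a j) (hW1 a j)]
    rfl
  obtain ⟨C, hC0, hC⟩ := bound hCO hDE hGM hGM' hGE hLI hHB hFI p k L ι' g N hN I J xx yy
    (fun q n ↦ z n q) A B (fun q n ↦ hz n q) hA hB hX hY
  -- the basis
  have hPn0 : ((P : ℚ) * n) ≠ 0 := by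
    have h1 : (P : ℚ) ≠ 0 := by exact_mod_cast hP0.ne'
    have h2 : (n : ℚ) ≠ 0 := by exact_mod_cast hn.ne'
    exact mul_ne_zero h1 h2
  let e : Basis (Fin g) ℚ V := b.unitsSMul fun _ ↦ Units.mk0 ((P : ℚ) * n) hPn0
  have he : ∀ q, e q = ((P : ℚ) * n) • b q := fun q ↦ by
    simp only [e]
    rw [Basis.unitsSMul_apply]
    rfl
  let D : Dat Ω I J g :=
    { X := fun a i ↦ (((∑ q, a q • xx q i : 𝓞 L) : L) : Ω)
      Y := fun a j ↦ ((((∏ q, yy q j ^ a q : (𝓞 L)ˣ) : 𝓞 L) : L) : Ω)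
      X_add := fun a a' i ↦ by
        have : (∑ q, (a + a') q • xx q i : 𝓞 L) = ∑ q, a q • xx q i + ∑ q, a' q • xx q i := by
          simp only [Pi.add_apply, add_smul, Finset.sum_add_distrib]
        rw [this]
        rfl
      Y_add := fun a a' j ↦ by
        have : (∏ q, yy q j ^ (a + a') q : (𝓞 L)ˣ) = (∏ q, yy q j ^ a q) * ∏ q, yy q j ^ a' q := by
          simp only [Pi.add_apply, zpow_add, Finset.prod_mul_distrib]
        rw [this]
        rfl
      Y_ne := fun a j h ↦ by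
        have h1 : ((((∏ q, yy q j ^ a q : (𝓞 L)ˣ) : 𝓞 L) : L) : Ω) = 0 := h
        have h2 : (((∏ q, yy q j ^ a q : (𝓞 L)ˣ) : 𝓞 L) : L) = 0 := by
          have := (map_eq_zero (algebraMap L Ω)).1 h1
          exact this
        have h3 := RingOfIntegers.coe_eq_zero_iff.1 h2
        exact Units.ne_zero _ h3 }
  have hYe : ∀ (a : Fin g → ℤ) j, Y j (∑ q, (a q : ℚ) • e q) =
      ∑ q, (a q : k) * ((P : k) * ((n : k) * Y j (b q))) := by
    intro a j
    rw [map_sum]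
    refine Finset.sum_congr rfl fun q _ ↦ ?_
    rw [he, map_smul, map_smul, Algebra.smul_def, Algebra.smul_def, map_mul, map_natCast,
      map_natCast, map_intCast]
    ring
  have hDW : ∀ a j, Units.map (ι : Ω →* k) (Units.mk0 (D.Y a j) (D.Y_ne a j)) = W a j := by
    intro a j
    apply Units.ext
    rfl
  refine ⟨g, e, D, C, hC0, ?_, ?_, ?_, ?_⟩
  · intro a i
    show (((∑ q, a q • xx q i : 𝓞 L) : L) : Ω) = _
    have e1 : ((∑ q, a q • xx q i : 𝓞 L) : L) = ∑ q, (a q : L) * ((P : L) * (x0 q i : L)) := by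
      refine (map_sum (algebraMap (𝓞 L) L) _ _).trans ?_
      refine Finset.sum_congr rfl fun q _ ↦ ?_
      simp [xx]
    rw [e1]
    have e2 : ((∑ q, (a q : L) * ((P : L) * (x0 q i : L)) : L) : Ω) =
        ∑ q, (a q : Ω) * ((P : Ω) * ((x0 q i : L) : Ω)) := by
      push_cast
      rfl
    rw [e2, map_sum]
    refine Finset.sum_congr rfl fun q _ ↦ ?_
    rw [hx0, he, map_smul, map_smul, Algebra.smul_def, Algebra.smul_def, map_mul, map_natCast,
      map_natCast, map_intCast]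
    ring
  · intro a j
    rw [hDW, hWlog, hYe]
  · intro a s
    have h1 : Λ.toFun (∏ j, W a j ^ s j) = ∑ j, (s j : ℚ) • Y j (∑ q, (a q : ℚ) • e q) := by
      rw [log_prod]
      refine Finset.sum_congr rfl fun j _ ↦ ?_
      rw [log_zpow, hWlog, hYe, Algebra.smul_def]
      simp
    have h2 : ι (∏ j, D.Y a j ^ s j) = ((∏ j, W a j ^ s j : kˣ) : k) := by
      rw [map_prod, Units.coe_prod]
      refine Finset.prod_congr rfl fun j _ ↦ ?_
      rw [map_zpow₀, Units.val_zpow_eq_zpow_val]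
      rfl
    constructor
    · intro h
      rw [← h1]
      rw [h, map_one] at h2
      have h3 : (∏ j, W a j ^ s j : kˣ) = 1 := Units.ext h2.symm
      rw [h3, log_one]
    · intro h
      rw [← h1] at h
      have h4 : ‖((∏ j, W a j ^ s j : kˣ) : k) - 1‖ ≤ ((p : ℝ)⁻¹) ^ 2 :=
        near_prod _ _ (by positivity) hq1 fun j _ ↦
          near_zpow _ (by positivity) hq1 (hW1 a j) _
      have h5 := pexp_log Λ _ h4
      rw [h, pexp_zero] at h5
      rw [← h5] at h2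
      exact (map_eq_one_iff ι ι.injective).1 h2
  · intro U T B' S hU hT hB' hSB l t s a ht hs ha hdet
    refine hC U T B' S hU hT hB' hSB l t s a ht hs ha ?_
    intro h0
    apply hdet
    set M : Matrix (Fin l) (Fin l) (𝓞 L) := Matrix.of fun m m' ↦ ((∏ i, (∑ q, a m' q • xx q i) ^ t m i) *
        ∏ j, ((∏ q, yy q j ^ a m' q : (𝓞 L)ˣ) : 𝓞 L) ^ s m j : 𝓞 L) with hM
    set φ : 𝓞 L →+* Ω := (algebraMap L Ω).comp (algebraMap (𝓞 L) L) with hφ
    have e1 : φ M.det = (φ.mapMatrix M).det := RingHom.map_det _ _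
    have e2 : φ.mapMatrix M = Matrix.of fun m m' ↦ (∏ i, D.X (a m') i ^ t m i) *
        ∏ j, D.Y (a m') j ^ s m j := by
      ext i j
      show φ (M i j) = _
      rw [hM, Matrix.of_apply, map_mul, map_prod, map_prod, Matrix.of_apply]
      congr 1
    rw [← e2, ← e1, h0, map_zero]

end Pool.Agent.Helper42.SLR
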